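import Pool.Agent.V1180.HTf

/-!
# MP_8d7c8e_an, Q1: yes

There are a function `f` in `H^∞(T^∞)` and one radial approach, independent of the boundary point
and with radii decreasing in the coordinate, along which convergence to the boundary value fails
at almost every point of `T^∞`.
-/

namespace Pool.Agent.Results.MP_8d7c8e_an.FailureAlongDecreasingRadii

open Pool.Agent.V1180.HT MeasureTheory Filter Topology Set

theorem result : ∃ f : Tinf → ℂ, IsHinf f ∧ ∃ r : ℕ → ℕ → ℝ,
    (∀ k n, 0 ≤ r k n ∧ r k n < 1) ∧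
    (∀ k, (Function.support (r k)).Finite) ∧
    (∀ k, Antitone (r k)) ∧
    (∀ n, Tendsto (fun k => r k n) atTop (𝓝 1)) ∧
    ∀ᵐ θ ∂mT, ¬ Tendsto (fun k => poissonExt f (fun n => (r k n : ℂ) * (θ n : ℂ)))
      atTop (𝓝 (f θ)) := by
  have hinf : Infinite (Σ k, Finset (Fin (win k).m)) :=
    Infinite.of_injective (fun k : ℕ => (⟨k, ∅⟩ : Σ k, Finset (Fin (win k).m)))
      fun a b h => congrArg Sigma.fst h
  obtain ⟨e⟩ : Nonempty ((Σ k, Finset (Fin (win k).m)) ≃ ℕ) := by
    obtain ⟨hden⟩ := nonempty_denumerable (Σ k, Finset (Fin (win k).m))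
    exact ⟨Denumerable.eqv _⟩
  have hκ : Tendsto (fun t => (e.symm t).1) atTop atTop := by
    rw [tendsto_atTop]
    intro K
    have hfin : {x : Σ k, Finset (Fin (win k).m) | x.1 < K}.Finite := by
      refine (Finset.finite_toSet ((Finset.range K).sigma fun k => Finset.univ)).subset ?_
      intro x hx
      rw [Finset.mem_coe, Finset.mem_sigma, Finset.mem_range]
      exact ⟨hx, Finset.mem_univ _⟩
    have hfin2 := hfin.preimage (f := e.symm) e.symm.injective.injOn
    have h := hfin2.compl_mem_cofinite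
    rw [Nat.cofinite_eq_atTop] at h
    filter_upwards [h] with t ht
    by_contra hcon
    exact ht (not_le.1 hcon)
  refine ⟨ff, ff_Hinf, fun t => rr (e.symm t).1 (e.symm t).2, fun t n => ⟨rr_nonneg _ _ _,
    rr_lt _ _ _⟩, fun t => ?_, fun t => rr_anti _ _, fun n => ?_, ?_⟩
  · refine (Set.finite_Iio (st ((e.symm t).1 + 1))).subset fun n hn => ?_
    rw [mem_Iio]
    by_contra hcon
    exact hn (rr_zero _ _ (not_lt.1 hcon))
  · exact rr_tendsto hκ (fun t => (e.symm t).2) n
  · filter_upwards [main_fact] with θ hθ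
    obtain ⟨I, hI⟩ := hθ
    set Φ : (Σ k, Finset (Fin (win k).m)) → ℂ :=
      fun x => poissonExt ff (fun n => (rr x.1 x.2 n : ℂ) * (θ n : ℂ)) with hΦ
    intro hcon
    apply hI
    have hinj : Function.Injective fun k : ℕ => e ⟨k, I k⟩ :=
      fun a b h => congrArg Sigma.fst (e.injective h)
    have h1 : Tendsto (fun t => Φ (e.symm t)) atTop (𝓝 (ff θ)) := hcon
    have h2 : Tendsto (fun k => Φ (e.symm (e ⟨k, I k⟩))) atTop (𝓝 (ff θ)) :=
      h1.comp hinj.nat_tendsto_atTop
    have h3 : ∀ k, Φ (e.symm (e ⟨k, I k⟩)) = Φ ⟨k, I k⟩ := fun k => by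
      rw [e.symm_apply_apply]
    simp only [h3] at h2
    exact h2

end Pool.Agent.Results.MP_8d7c8e_an.FailureAlongDecreasingRadii
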